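import Pool.Agent.Q296.TreeCov

/-!
# MP_6df53f_co, Q1: no such constant `K` exists

For every `δ` and every large prime `p`, `cp_{2p+1}(δ) > p²`; hence
`cp_r(δ) ≤ K r ⌈r / log(1/δ)⌉` fails for every `K`.
-/

namespace Pool.Agent.Results.MP_6df53f_co.QuadraticCyclePartitions

open Filter

/-- `H` is a cycle of `G`, degenerate cycles included: the empty graph, a single vertex, a single
edge, or the subgraph traversed by a closed walk which is a cycle (of length at least three). -/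
def IsCyc {n : ℕ} {G : SimpleGraph (Fin n)} (H : G.Subgraph) : Prop :=
  H = ⊥ ∨ (∃ v, H = G.singletonSubgraph v) ∨ (∃ u v, ∃ h : G.Adj u v, H = G.subgraphOfAdj h) ∨
    ∃ (v : Fin n) (w : G.Walk v v), w.IsCycle ∧ H = w.toSubgraph

/-- `H` is a monochromatic cycle (the edge colouring is given as a function on unordered pairs, of
which only the values on edges matter). -/
def IsMonoCyc {n r : ℕ} {G : SimpleGraph (Fin n)} (χ : Sym2 (Fin n) → Fin r)
    (H : G.Subgraph) : Prop :=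
  IsCyc H ∧ ∀ e ∈ H.edgeSet, ∀ e' ∈ H.edgeSet, χ e = χ e'

/-- `cp(G)`: the least number of pairwise vertex-disjoint monochromatic cycles covering all
vertices. -/
noncomputable def cp {n r : ℕ} (G : SimpleGraph (Fin n)) (χ : Sym2 (Fin n) → Fin r) : ℕ :=
  sInf {k | ∃ T : Fin k → G.Subgraph, (∀ t, IsMonoCyc χ (T t)) ∧
    (∀ s t, s ≠ t → Disjoint (T s).verts (T t).verts) ∧ ∀ v, ∃ t, v ∈ (T t).verts}

/-- minimum degree at least `(1 - δ) n` -/
def MinDeg {n : ℕ} (G : SimpleGraph (Fin n)) (δ : ℝ) : Prop :=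
  ∀ v, (1 - δ) * n ≤ ((G.neighborSet v).ncard : ℝ)

/-- `cp_r(δ)`: the limsup over `n` of the maximum of `cp(G)` over the `r`-edge-coloured graphs on
`n` vertices with minimum degree at least `(1 - δ) n`, as an extended nonnegative real. -/
noncomputable def cpr (r : ℕ) (δ : ℝ) : ENNReal :=
  limsup (fun n : ℕ => ⨆ (G : SimpleGraph (Fin n)) (χ : Sym2 (Fin n) → Fin r)
    (_ : MinDeg G δ), (cp G χ : ENNReal)) atTop

lemma IsCyc.preconnected {n : ℕ} {G : SimpleGraph (Fin n)} {H : G.Subgraph} (h : IsCyc H) :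
    H.Preconnected := by
  rcases h with rfl | ⟨v, rfl⟩ | ⟨u, v, h, rfl⟩ | ⟨v, w, _, rfl⟩
  · refine ⟨?_⟩
    rintro ⟨a, ha⟩
    simp at ha
  · exact (SimpleGraph.Subgraph.singletonSubgraph_connected).preconnected
  · exact (SimpleGraph.Subgraph.subgraphOfAdj_connected h).preconnected
  · exact (w.toSubgraph_connected).preconnected

/-- a partition into single vertices exists, so the infimum is attained -/
lemma cp_spec {n r : ℕ} (G : SimpleGraph (Fin n)) (χ : Sym2 (Fin n) → Fin r) :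
    ∃ T : Fin (cp G χ) → G.Subgraph, (∀ t, IsMonoCyc χ (T t)) ∧
      (∀ s t, s ≠ t → Disjoint (T s).verts (T t).verts) ∧ ∀ v, ∃ t, v ∈ (T t).verts := by
  have hne : {k | ∃ T : Fin k → G.Subgraph, (∀ t, IsMonoCyc χ (T t)) ∧
      (∀ s t, s ≠ t → Disjoint (T s).verts (T t).verts) ∧
      ∀ v, ∃ t, v ∈ (T t).verts}.Nonempty := by
    refine ⟨n, fun v => G.singletonSubgraph v, ?_, ?_, ?_⟩
    · intro v
      refine ⟨Or.inr (Or.inl ⟨v, rfl⟩), ?_⟩
      intro e he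
      simp at he
    · intro s t hst
      simpa using hst
    · intro v
      exact ⟨v, by simp⟩
  exact Nat.sInf_mem hne

theorem lower {δ : ℝ} (hδ : 0 < δ) : ∃ p0 : ℕ, ∀ p : ℕ, p.Prime → p0 ≤ p →
    ((p ^ 2 + 1 : ℕ) : ENNReal) ≤ cpr (2 * p + 1) δ := by
  obtain ⟨p0, h⟩ := Pool.Agent.Q296.TreeCov.exists_graph hδ
  refine ⟨p0, fun p hp hpp => ?_⟩
  apply le_limsup_of_frequently_le'
  rw [frequently_atTop]
  intro n0
  obtain ⟨n, hn, G, χ, hdeg, hcov⟩ := h p hp hpp n0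
  refine ⟨n, hn, ?_⟩
  refine le_trans ?_ (le_iSup_of_le G (le_iSup_of_le χ (le_iSup_of_le hdeg le_rfl)))
  obtain ⟨T, hT, _, hTv⟩ := cp_spec G χ
  have hlt := hcov (cp G χ) T (fun t => (hT t).1.preconnected) ?_ hTv
  · exact_mod_cast hlt
  · intro t
    by_cases he : ∃ e, e ∈ (T t).edgeSet
    · obtain ⟨e, he⟩ := he
      exact ⟨χ e, fun e' he' => (hT t).2 e' he' e he⟩
    · push Not at he
      exact ⟨0, fun e' he' => absurd he' (he e')⟩

/-- **Disproof of Q1.** For every `δ ∈ (0,1/2)` and every large prime `p`,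
`cp_{2p+1}(δ) ≥ p² + 1`; and for every `K > 0` there are `r ≥ 2` and `δ ∈ (0,1/2)` with
`cp_r(δ) > K r ⌈r / log (1/δ)⌉`. -/
theorem result :
    (∀ δ : ℝ, 0 < δ → δ < 1 / 2 → ∃ p0 : ℕ, ∀ p : ℕ, p.Prime → p0 ≤ p →
      ((p ^ 2 + 1 : ℕ) : ENNReal) ≤ cpr (2 * p + 1) δ) ∧
    ∀ K : ℝ, 0 < K → ∃ r : ℕ, 2 ≤ r ∧ ∃ δ : ℝ, 0 < δ ∧ δ < 1 / 2 ∧
      ENNReal.ofReal (K * r * (⌈(r : ℝ) / Real.log (1 / δ)⌉ : ℝ)) < cpr r δ := by
  refine ⟨fun δ hδ _ => lower hδ, fun K hK => ?_⟩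
  obtain ⟨δ, hδ0, hδ1, P0, hnum⟩ := Pool.Agent.Q296.TreeCov.numeric hK
  obtain ⟨p0, hp0⟩ := lower hδ0
  obtain ⟨p, hpge, hp⟩ := Nat.exists_infinite_primes (max p0 P0)
  refine ⟨2 * p + 1, ?_, δ, hδ0, hδ1, ?_⟩
  · have := hp.two_le
    omega
  · refine lt_of_lt_of_le ?_ (hp0 p hp (le_trans (le_max_left _ _) hpge))
    have h1 := hnum p (le_trans (le_max_right _ _) hpge)
    rw [← ENNReal.ofReal_natCast]
    exact (ENNReal.ofReal_lt_ofReal_iff (by positivity)).mpr h1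

end Pool.Agent.Results.MP_6df53f_co.QuadraticCyclePartitions
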